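import Mathlib

namespace Pool.Agent.Results.MP_2a6590_nt.LowerBound

open Finset

/-- `A` is valid mod `N`: the only multiset of size `|A|` with elements from `A` (multiplicity
function `m`) whose sum is the sum of `A` modulo `N` is `A` itself. -/
def Valid (N : ℕ) (A : Finset (ZMod N)) : Prop :=
  ∀ m : ZMod N → ℕ, ∑ a ∈ A, m a = A.card →
    ∑ a ∈ A, (m a : ZMod N) * a = ∑ a ∈ A, a → ∀ a ∈ A, m a = 1

lemma key {N : ℕ} {A : Finset (ZMod N)} (hA : Valid N A) (u : ZMod N → ℤ)
    (h1 : ∀ a ∈ A, -1 ≤ u a) (h2 : ∑ a ∈ A, u a = 0)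
    (h3 : ∑ a ∈ A, (u a : ZMod N) * a = 0) : ∀ a ∈ A, u a = 0 := by
  intro a ha
  have hm : ∀ a ∈ A, (((1 + u a).toNat : ℕ) : ℤ) = 1 + u a := by
    intro a ha
    have := h1 a ha
    omega
  have e1 : ∑ a ∈ A, (1 + u a).toNat = A.card := by
    have : ((∑ a ∈ A, (1 + u a).toNat : ℕ) : ℤ) = (A.card : ℤ) := by
      rw [Nat.cast_sum, Finset.sum_congr rfl hm, Finset.sum_add_distrib, h2]
      simp
    exact_mod_cast this
  have e2 : ∑ a ∈ A, (((1 + u a).toNat : ℕ) : ZMod N) * a = ∑ a ∈ A, a := by
    have hc : ∀ a ∈ A, (((1 + u a).toNat : ℕ) : ZMod N) * a = a + (u a : ZMod N) * a := by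
      intro a ha
      have h := hm a ha
      have h' : (((1 + u a).toNat : ℕ) : ZMod N) = ((1 + u a : ℤ) : ZMod N) := by
        rw [← h]; simp
      rw [h']; push_cast; ring
    rw [Finset.sum_congr rfl hc, Finset.sum_add_distrib, h3, add_zero]
  have := hA _ e1 e2 a ha
  have h := hm a ha
  rw [this] at h
  push_cast at h
  omega

/-- `f b T = ∑_{a ∈ T} (a - b)` -/
def f {N : ℕ} (b : ZMod N) (T : Finset (ZMod N)) : ZMod N := ∑ a ∈ T, (a - b)

lemma f_eq {N : ℕ} (b : ZMod N) (T : Finset (ZMod N)) :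
    f b T = ∑ a ∈ T, a - (T.card : ZMod N) * b := by
  unfold f
  rw [Finset.sum_sub_distrib]
  simp

lemma sum_ind {N : ℕ} {A T : Finset (ZMod N)} (hT : T ⊆ A) :
    ∑ a ∈ A, (if a ∈ T then (1:ℤ) else 0) = T.card := by
  rw [Finset.sum_ite_mem, Finset.inter_eq_right.mpr hT]; simp

lemma sum_ind_mul {N : ℕ} {A T : Finset (ZMod N)} (hT : T ⊆ A) :
    ∑ a ∈ A, (((if a ∈ T then (1:ℤ) else 0) : ℤ) : ZMod N) * a = ∑ a ∈ T, a := by
  have : ∀ a ∈ A, (((if a ∈ T then (1:ℤ) else 0) : ℤ) : ZMod N) * a = if a ∈ T then a else 0 := by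
    intro a _
    split_ifs <;> simp
  rw [Finset.sum_congr rfl this, Finset.sum_ite_mem, Finset.inter_eq_right.mpr hT]

lemma sum_single {N : ℕ} {A : Finset (ZMod N)} {b : ZMod N} (hb : b ∈ A) (c : ℤ) :
    ∑ a ∈ A, (if a = b then c else 0) = c := by
  rw [Finset.sum_ite_eq' A b]; simp [hb]

lemma sum_single_mul {N : ℕ} {A : Finset (ZMod N)} {b : ZMod N} (hb : b ∈ A) (c : ℤ) :
    ∑ a ∈ A, (((if a = b then c else 0) : ℤ) : ZMod N) * a = (c : ZMod N) * b := by
  have : ∀ a ∈ A, (((if a = b then c else 0) : ℤ) : ZMod N) * a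
      = if a = b then (c : ZMod N) * b else 0 := by
    intro a _
    split_ifs with h
    · rw [h]
    · simp
  rw [Finset.sum_congr rfl this, Finset.sum_ite_eq' A b]; simp [hb]

lemma inj_aux {N : ℕ} {A : Finset (ZMod N)} (hA : Valid N A) {b : ZMod N} (hb : b ∈ A)
    {T S : Finset (ZMod N)} (hT : T ⊆ A.erase b) (hS : S ⊆ A.erase b)
    (hTS : T.card ≤ S.card) (h : f b T = f b S) : T = S := by
  have hT' : T ⊆ A := hT.trans (Finset.erase_subset _ _)
  have hS' : S ⊆ A := hS.trans (Finset.erase_subset _ _)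
  have hbT : b ∉ T := fun h => by simpa using hT h
  have hbS : b ∉ S := fun h => by simpa using hS h
  have H := key hA (fun a => (if a ∈ T then (1:ℤ) else 0) - (if a ∈ S then (1:ℤ) else 0)
      + (if a = b then ((S.card : ℤ) - T.card) else 0)) ?_ ?_ ?_
  · ext a
    by_cases ha : a ∈ A
    · by_cases hab : a = b
      · subst hab; simp [hbT, hbS]
      · have := H a ha
        simp only [hab, if_false, add_zero] at this
        by_cases h1 : a ∈ T <;> by_cases h2 : a ∈ S <;> simp [h1, h2] at this ⊢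
    · exact ⟨fun h => absurd (hT' h) ha, fun h => absurd (hS' h) ha⟩
  · intro a ha
    by_cases hab : a = b
    · subst hab
      simp only [hbT, hbS, if_false, if_true]
      have : (T.card : ℤ) ≤ S.card := by exact_mod_cast hTS
      linarith
    · simp only [hab, if_false]
      split_ifs <;> norm_num
  · rw [Finset.sum_add_distrib, Finset.sum_sub_distrib, sum_ind hT', sum_ind hS', sum_single hb]
    ring
  · have e : ∀ a ∈ A, ((((if a ∈ T then (1:ℤ) else 0) - (if a ∈ S then (1:ℤ) else 0)
      + (if a = b then ((S.card : ℤ) - T.card) else 0) : ℤ)) : ZMod N) * a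
      = (((if a ∈ T then (1:ℤ) else 0) : ℤ) : ZMod N) * a
        - (((if a ∈ S then (1:ℤ) else 0) : ℤ) : ZMod N) * a
        + (((if a = b then ((S.card : ℤ) - T.card) else 0) : ℤ) : ZMod N) * a := by
      intro a _
      rw [Int.cast_add, Int.cast_sub]; ring
    rw [Finset.sum_congr rfl e, Finset.sum_add_distrib, Finset.sum_sub_distrib, sum_ind_mul hT',
      sum_ind_mul hS', sum_single_mul hb]
    rw [f_eq, f_eq] at h
    push_cast
    linear_combination h

lemma inj {N : ℕ} {A : Finset (ZMod N)} (hA : Valid N A) {b : ZMod N} (hb : b ∈ A)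
    {T S : Finset (ZMod N)} (hT : T ⊆ A.erase b) (hS : S ⊆ A.erase b)
    (h : f b T = f b S) : T = S := by
  rcases le_total T.card S.card with h1 | h1
  · exact inj_aux hA hb hT hS h1 h
  · exact (inj_aux hA hb hS hT h1 h.symm).symm

lemma dbl {N : ℕ} {A : Finset (ZMod N)} (hA : Valid N A) {b j : ZMod N} (hb : b ∈ A) (hj : j ∈ A)
    {T : Finset (ZMod N)} (hT : T ⊆ A.erase b) (hne : T.Nonempty)
    (h : f b T = 2 * (j - b)) : False := by
  have hT' : T ⊆ A := hT.trans (Finset.erase_subset _ _)
  have hbT : b ∉ T := fun h => by simpa using hT h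
  have hc : (1:ℤ) ≤ T.card := by exact_mod_cast hne.card_pos
  have H := key hA (fun a => (if a = j then (2:ℤ) else 0) - (if a ∈ T then (1:ℤ) else 0)
      + (if a = b then ((T.card : ℤ) - 2) else 0)) ?_ ?_ ?_
  · have := H j hj
    by_cases hjb : j = b
    · subst hjb
      simp only [if_true, hbT, if_false] at this
      linarith
    · simp only [if_true, hjb, if_false] at this
      split_ifs at this <;> norm_num at this
  · intro a ha
    by_cases hab : a = b
    · subst hab
      simp only [hbT, if_false, if_true]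
      split_ifs <;> linarith
    · simp only [hab, if_false]
      split_ifs <;> norm_num
  · rw [Finset.sum_add_distrib, Finset.sum_sub_distrib, sum_ind hT', sum_single hb, sum_single hj]
    ring
  · have e : ∀ a ∈ A, ((((if a = j then (2:ℤ) else 0) - (if a ∈ T then (1:ℤ) else 0)
      + (if a = b then ((T.card : ℤ) - 2) else 0) : ℤ)) : ZMod N) * a
      = (((if a = j then (2:ℤ) else 0) : ℤ) : ZMod N) * a
        - (((if a ∈ T then (1:ℤ) else 0) : ℤ) : ZMod N) * a
        + (((if a = b then ((T.card : ℤ) - 2) else 0) : ℤ) : ZMod N) * a := by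
      intro a _
      rw [Int.cast_add, Int.cast_sub]; ring
    rw [Finset.sum_congr rfl e, Finset.sum_add_distrib, Finset.sum_sub_distrib, sum_ind_mul hT',
      sum_single_mul hb, sum_single_mul hj]
    rw [f_eq] at h
    push_cast
    linear_combination -h

lemma card_dbl {N : ℕ} [NeZero N] (A : Finset (ZMod N)) (b : ZMod N) :
    A.card ≤ 2 * (A.image (fun a => 2 * (a - b))).card := by
  apply Finset.card_le_mul_card_image
  intro c _
  rcases (A.filter fun x => 2 * (x - b) = c).eq_empty_or_nonempty with h | ⟨x0, hx0⟩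
  · rw [h]; simp
  · have hx0' : 2 * (x0 - b) = c := (Finset.mem_filter.mp hx0).2
    calc (A.filter fun x => 2 * (x - b) = c).card
        = ((A.filter fun x => 2 * (x - b) = c).image (fun x => x - x0)).card := by
          rw [Finset.card_image_of_injective]
          exact sub_left_injective
      _ ≤ (Finset.univ.filter fun a : ZMod N => 2 • a = 0).card := by
          apply Finset.card_le_card
          intro y hy
          rw [Finset.mem_image] at hy
          obtain ⟨x, hx, rfl⟩ := hy
          have hx' : 2 * (x - b) = c := (Finset.mem_filter.mp hx).2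
          simp only [Finset.mem_filter, Finset.mem_univ, true_and, nsmul_eq_mul]
          push_cast
          linear_combination hx' - hx0'
      _ ≤ 2 := IsAddCyclic.card_nsmul_eq_zero_le (by norm_num)

/-- If `n ≥ 1` and some `n`-element subset of `ℤ/N` is valid mod `N` (`N ≥ 1`), then
`N ≥ 2^(n-1) + ⌈n/2⌉ - 1`. -/
theorem result : ∀ n N : ℕ, 1 ≤ n → 1 ≤ N → ∀ A : Finset (ZMod N), A.card = n → Valid N A →
    2 ^ (n - 1) + (n + 1) / 2 - 1 ≤ N := by
  intro n N hn hN A hcard hA
  have : NeZero N := ⟨by omega⟩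
  have hne : A.Nonempty := by
    rw [← Finset.card_pos]; omega
  obtain ⟨b, hb⟩ := hne
  have hB : (A.erase b).card = n - 1 := by rw [Finset.card_erase_of_mem hb, hcard]
  set P := (A.erase b).powerset.erase ∅ with hP
  have hPc : P.card = 2 ^ (n - 1) - 1 := by
    rw [hP, Finset.card_erase_of_mem (by simp), Finset.card_powerset, hB]
  have hF : (P.image (f b)).card = 2 ^ (n - 1) - 1 := by
    rw [Finset.card_image_of_injOn, hPc]
    intro T hT S hS h
    have hT1 : T ⊆ A.erase b := by
      have := (Finset.mem_erase.mp (Finset.mem_coe.mp hT)).2; simpa using this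
    have hS1 : S ⊆ A.erase b := by
      have := (Finset.mem_erase.mp (Finset.mem_coe.mp hS)).2; simpa using this
    exact inj hA hb hT1 hS1 h
  have hdisj : Disjoint (P.image (f b)) (A.image (fun a => 2 * (a - b))) := by
    rw [Finset.disjoint_left]
    intro x hx hx'
    rw [Finset.mem_image] at hx hx'
    obtain ⟨T, hT, rfl⟩ := hx
    obtain ⟨j, hj, hj'⟩ := hx'
    have hT1 : T ⊆ A.erase b := by
      have := (Finset.mem_erase.mp hT).2; simpa using this
    have hT2 : T.Nonempty := Finset.nonempty_iff_ne_empty.mpr (Finset.mem_erase.mp hT).1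
    exact dbl hA hb hj hT1 hT2 hj'.symm
  have hle : (P.image (f b) ∪ A.image (fun a => 2 * (a - b))).card ≤ N := by
    calc _ ≤ (Finset.univ : Finset (ZMod N)).card := Finset.card_le_univ _
      _ = N := by rw [Finset.card_univ, ZMod.card]
  rw [Finset.card_union_of_disjoint hdisj, hF] at hle
  have h2 := card_dbl A b
  rw [hcard] at h2
  have h3 : 1 ≤ 2 ^ (n - 1) := Nat.one_le_two_pow
  omega

end Pool.Agent.Results.MP_2a6590_nt.LowerBound
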